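import Pool.Agent.Helper17.Trs.Basic

/-!
# Project `trs`: Jordan decomposition (S_JorT, S_JorD)
-/

namespace Trs.H79

open MvPolynomial

variable {n : ℕ} (tor : Fin n → Bool)

/-! ### General linear algebra -/

section Lin

variable {V : Type*} [AddCommGroup V] [Module ℂ V]

lemma aeval_mem (T : Module.End ℂ V) (p : Submodule ℂ V) (hT : ∀ x ∈ p, T x ∈ p)
    (q : Polynomial ℂ) : ∀ x ∈ p, Polynomial.aeval T q x ∈ p := by
  induction q using Polynomial.induction_on' with
  | add a b ha hb =>
    intro x hx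
    rw [map_add, LinearMap.add_apply]
    exact p.add_mem (ha x hx) (hb x hx)
  | monomial k a =>
    intro x hx
    rw [Polynomial.aeval_monomial, Module.End.mul_apply, Module.algebraMap_end_apply]
    refine p.smul_mem _ ?_
    induction k with
    | zero => simpa using hx
    | succ k ih => rw [pow_succ', Module.End.mul_apply]; exact hT _ ih

/-- components in generalized eigenspaces -/
lemma comp_mem (T : Module.End ℂ V) (p : Submodule ℂ V) (hT : ∀ x ∈ p, T x ∈ p)
    (E : Finset ℂ) (f : ℂ → V) (N : ℕ)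
    (hN : ∀ μ ∈ E, ((T - algebraMap ℂ (Module.End ℂ V) μ) ^ N) (f μ) = 0)
    (hs : ∑ μ ∈ E, f μ ∈ p) : ∀ μ ∈ E, f μ ∈ p := by
  classical
  intro μ0 h0
  have hco : IsCoprime (∏ μ ∈ E.erase μ0, (Polynomial.X - Polynomial.C μ : Polynomial ℂ) ^ N)
      ((Polynomial.X - Polynomial.C μ0 : Polynomial ℂ) ^ N) := by
    refine IsCoprime.prod_left fun μ hμ => ?_
    refine IsCoprime.pow ?_
    have := Polynomial.pairwise_coprime_X_sub_C (K := ℂ) (s := fun x : ℂ => x)
      Function.injective_id (Finset.ne_of_mem_erase hμ)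
    exact this
  obtain ⟨a, b, hab⟩ := hco
  have key : ∀ μ ∈ E, Polynomial.aeval T
      (a * ∏ μ ∈ E.erase μ0, (Polynomial.X - Polynomial.C μ : Polynomial ℂ) ^ N) (f μ) =
      if μ = μ0 then f μ0 else 0 := by
    intro μ hμ
    have hz : ∀ ν : ℂ, Polynomial.aeval T ((Polynomial.X - Polynomial.C ν : Polynomial ℂ) ^ N) =
        (T - algebraMap ℂ (Module.End ℂ V) ν) ^ N := by
      intro ν
      rw [map_pow, map_sub, Polynomial.aeval_X, Polynomial.aeval_C]
    split_ifs with h
    · subst h
      have h1 : a * ∏ μ' ∈ E.erase μ, (Polynomial.X - Polynomial.C μ' : Polynomial ℂ) ^ N =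
          1 - b * (Polynomial.X - Polynomial.C μ : Polynomial ℂ) ^ N := by
        rw [← hab]; ring
      rw [h1, map_sub, map_one, map_mul, LinearMap.sub_apply, Module.End.mul_apply, hz, hN μ hμ,
        map_zero, sub_zero, Module.End.one_apply]
    · have h2 : μ ∈ E.erase μ0 := Finset.mem_erase.mpr ⟨h, hμ⟩
      rw [← Finset.prod_erase_mul _ _ h2, ← mul_assoc, map_mul, Module.End.mul_apply, hz, hN μ hμ,
        map_zero]
  have h3 := aeval_mem T p hT
    (a * ∏ μ ∈ E.erase μ0, (Polynomial.X - Polynomial.C μ : Polynomial ℂ) ^ N) _ hs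
  rw [map_sum, Finset.sum_congr rfl key, Finset.sum_ite_eq' E μ0] at h3
  simpa [h0] using h3

/-- a polynomial curve whose values at all naturals lie in a subspace has coefficients there -/
lemma curve_mem (p : Submodule ℂ V) (N : ℕ) (g : ℕ → V)
    (h : ∀ k : ℕ, ∑ j ∈ Finset.range N, ((k : ℂ) ^ j) • g j ∈ p) : ∀ j < N, g j ∈ p := by
  intro j hj
  by_contra hc
  obtain ⟨ℓ, hℓ, hp⟩ := Submodule.exists_le_ker_of_notMem hc
  set q : Polynomial ℂ := ∑ i ∈ Finset.range N, Polynomial.C (ℓ (g i)) * Polynomial.X ^ i with hq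
  have hroot : ∀ k : ℕ, q.IsRoot (k : ℂ) := by
    intro k
    rw [Polynomial.IsRoot.def, hq, Polynomial.eval_finsetSum]
    have h2 : ℓ (∑ i ∈ Finset.range N, ((k : ℂ) ^ i) • g i) = 0 := hp (h k)
    rw [map_sum] at h2
    rw [← h2]
    refine Finset.sum_congr rfl fun i _ => ?_
    rw [map_smul, Polynomial.eval_mul, Polynomial.eval_C, Polynomial.eval_pow, Polynomial.eval_X,
      smul_eq_mul, mul_comm]
  have h0 : q = 0 := by
    refine Polynomial.eq_zero_of_infinite_isRoot q ?_
    exact (Set.infinite_range_of_injective (f := fun k : ℕ => (k : ℂ)) Nat.cast_injective).mono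
      (by rintro _ ⟨k, rfl⟩; exact hroot k)
  have h3 : q.coeff j = ℓ (g j) := by
    rw [hq, Polynomial.finsetSum_coeff]
    simp only [Polynomial.coeff_C_mul_X_pow]
    rw [Finset.sum_ite_eq (Finset.range N) j]
    simp [hj]
  rw [h0, Polynomial.coeff_zero] at h3
  exact hℓ h3.symm

end Lin

/-! ### Local nilpotency -/

/-- local nilpotency of a `ℂ`-linear map -/
def LN (Δ : Module.End ℂ (Rg n)) (f : Rg n) : Prop := ∃ N, (Δ ^ N) f = 0

lemma LN.mono {Δ : Module.End ℂ (Rg n)} {f : Rg n} {N : ℕ} (h : (Δ ^ N) f = 0) :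
    ∀ M, N ≤ M → (Δ ^ M) f = 0 := by
  intro M hM
  obtain ⟨k, rfl⟩ := Nat.exists_eq_add_of_le hM
  rw [add_comm, pow_add, Module.End.mul_apply, h, map_zero]

lemma LN.add {Δ : Module.End ℂ (Rg n)} {f g : Rg n} (hf : LN Δ f) (hg : LN Δ g) :
    LN Δ (f + g) := by
  obtain ⟨a, ha⟩ := hf
  obtain ⟨b, hb⟩ := hg
  exact ⟨max a b, by
    rw [map_add, LN.mono ha _ (le_max_left _ _), LN.mono hb _ (le_max_right _ _), add_zero]⟩

lemma LN.of_apply {Δ : Module.End ℂ (Rg n)} {f : Rg n} (h : LN Δ (Δ f)) : LN Δ f := by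
  obtain ⟨a, ha⟩ := h
  exact ⟨a + 1, by rw [pow_succ, Module.End.mul_apply]; exact ha⟩

/-- A Leibniz type rule `Δ (f g) = Δ f g + f Δ g + ε Δ f Δ g` makes the locally nilpotent
elements a subalgebra. -/
lemma LN.mul (Δ : Module.End ℂ (Rg n)) (ε : ℂ)
    (hL : ∀ f g, Δ (f * g) = Δ f * g + f * Δ g + ε • (Δ f * Δ g)) {f g : Rg n}
    (hf : LN Δ f) (hg : LN Δ g) : LN Δ (f * g) := by
  obtain ⟨a, ha⟩ := hf
  obtain ⟨b, hb⟩ := hg
  suffices h : ∀ s a b : ℕ, a + b ≤ s → ∀ f g : Rg n, (Δ ^ a) f = 0 → (Δ ^ b) g = 0 →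
      LN Δ (f * g) from h (a + b) a b le_rfl f g ha hb
  intro s
  induction s with
  | zero =>
    intro a b hab f g hf hg
    have : a = 0 := by omega
    subst this
    exact ⟨0, by simpa using Or.inl (by simpa using hf)⟩
  | succ s ih =>
    intro a b hab f g hf hg
    rcases Nat.eq_zero_or_pos a with rfl | hapos
    · exact ⟨0, by simpa using Or.inl (by simpa using hf)⟩
    rcases Nat.eq_zero_or_pos b with rfl | hbpos
    · exact ⟨0, by simpa using Or.inr (by simpa using hg)⟩
    obtain ⟨a, rfl⟩ : ∃ a', a = a' + 1 := ⟨a - 1, by omega⟩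
    obtain ⟨b, rfl⟩ : ∃ b', b = b' + 1 := ⟨b - 1, by omega⟩
    have hf' : (Δ ^ a) (Δ f) = 0 := by rw [← Module.End.mul_apply, ← pow_succ]; exact hf
    have hg' : (Δ ^ b) (Δ g) = 0 := by rw [← Module.End.mul_apply, ← pow_succ]; exact hg
    apply LN.of_apply
    rw [hL]
    have h1 := ih a (b + 1) (by omega) (Δ f) g hf' hg
    have h2 := ih (a + 1) b (by omega) f (Δ g) hf hg'
    have h3 : LN Δ (ε • (Δ f * Δ g)) := by
      obtain ⟨c, hc⟩ := ih a b (by omega) (Δ f) (Δ g) hf' hg'
      exact ⟨c, by rw [map_smul, hc, smul_zero]⟩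
    exact (h1.add h2).add h3

lemma LN.all (Δ : Module.End ℂ (Rg n)) (ε : ℂ)
    (hL : ∀ f g, Δ (f * g) = Δ f * g + f * Δ g + ε • (Δ f * Δ g))
    (hC : ∀ c, Δ (C c) = 0) (hX : ∀ i, ∃ c, Δ (X i) = C c) (f : Rg n) : LN Δ f := by
  induction f using MvPolynomial.induction_on with
  | C c => exact ⟨1, by simpa using hC c⟩
  | add p q hp hq => exact hp.add hq
  | mul_X p i hp =>
    refine LN.mul Δ ε hL hp ?_
    obtain ⟨c, hc⟩ := hX i
    exact ⟨2, by rw [pow_two, Module.End.mul_apply, hc, hC]⟩

/-! ### additive and multiplicative parts -/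

lemma addPart_add_mulPart (v : Fin n → ℂ) : addPart tor v + mulPart tor v = v := by
  funext i
  simp only [Pi.add_apply, addPart, mulPart]
  split_ifs <;> simp

lemma mulPart_neg (v : Fin n → ℂ) : mulPart tor (-v) = -mulPart tor v := by
  funext i
  simp only [Pi.neg_apply, mulPart]
  split_ifs <;> simp

/-- weight of a monomial -/
noncomputable def wt (w : Fin n → ℂ) (s : Fin n →₀ ℕ) : ℂ := ∑ i, (s i : ℂ) * mulPart tor w i

lemma dr_mulPart_monomial (w : Fin n → ℂ) (s : Fin n →₀ ℕ) (c : ℂ) :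
    dr tor (mulPart tor w) (monomial s c) = wt tor w s • monomial s c := by
  rw [dr_monomial, wt, Finset.sum_smul]
  refine Finset.sum_congr rfl fun i _ => ?_
  by_cases h : tor i
  · rw [if_pos h, smul_monomial]
    congr 1
    simp only [smul_eq_mul]; ring
  · rw [if_neg h]
    simp [mulPart, h]

lemma tr_mulPart_X_pow (w : Fin n → ℂ) (i : Fin n) (k : ℕ) :
    tr tor (mulPart tor w) (X i ^ k) = Complex.exp ((k : ℂ) * mulPart tor w i) • (X i ^ k : Rg n) := by
  rw [map_pow, tr_X]
  by_cases h : tor i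
  · rw [if_pos h, mul_pow, ← C_pow, ← Complex.exp_nat_mul, smul_eq_C_mul]
  · rw [if_neg h]
    simp [mulPart, h]

lemma tr_mulPart_monomial (w : Fin n → ℂ) (s : Fin n →₀ ℕ) (c : ℂ) :
    tr tor (mulPart tor w) (monomial s c) = Complex.exp (wt tor w s) • monomial s c := by
  rw [monomial_eq, map_mul, tr_C, Finsupp.prod_fintype _ _ (by simp), map_prod, wt,
    Complex.exp_sum, Finset.prod_congr rfl fun i _ => tr_mulPart_X_pow tor w i (s i),
    ← mul_smul_comm]
  congr 1
  exact (Finset.prod_smul ..)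

/-! ### The abstract Jordan argument -/

lemma pow_sub_apply (T S Δ : Module.End ℂ (Rg n)) (hSΔ : ∀ g, S (Δ g) = Δ (S g)) (μ c : ℂ)
    (hT : ∀ g, S g = μ • g → T g - μ • g = c • Δ g) (k : ℕ) : ∀ g, S g = μ • g →
    ((T - algebraMap ℂ (Module.End ℂ (Rg n)) μ) ^ k) g = c ^ k • (Δ ^ k) g := by
  induction k with
  | zero => intro g _; simp
  | succ k ih =>
    intro g hg
    rw [pow_succ, Module.End.mul_apply, LinearMap.sub_apply, Module.algebraMap_end_apply, hT g hg,
      map_smul, ih (Δ g) (by rw [hSΔ, hg, map_smul]), pow_succ Δ, Module.End.mul_apply, smul_smul,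
      pow_succ' c]

lemma jordan (T S Δ : Module.End ℂ (Rg n)) (hSΔ : ∀ g, S (Δ g) = Δ (S g))
    (ω : (Fin n →₀ ℕ) → ℂ) (hS : ∀ s c, S (monomial s c) = ω s • monomial s c) (c : ℂ → ℂ)
    (hT : ∀ μ g, S g = μ • g → T g - μ • g = c μ • Δ g) (hLN : ∀ f, LN Δ f)
    (p : Submodule ℂ (Rg n)) (hp : ∀ x ∈ p, T x ∈ p) : ∀ f ∈ p, S f ∈ p := by
  classical
  intro f hf
  set E : Finset ℂ := f.support.image ω with hE
  set F : ℂ → Rg n := fun μ => ∑ s ∈ f.support with ω s = μ, monomial s (coeff s f) with hF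
  have hsum : ∑ μ ∈ E, F μ = f := by
    rw [hF, Finset.sum_fiberwise_of_maps_to (fun s hs => Finset.mem_image_of_mem ω hs)]
    exact (f.as_sum).symm
  have hSF : ∀ μ, S (F μ) = μ • F μ := by
    intro μ
    rw [hF]
    simp only [map_sum, Finset.smul_sum]
    refine Finset.sum_congr rfl fun s hs => ?_
    rw [hS, (Finset.mem_filter.mp hs).2]
  choose N hN using fun μ => hLN (F μ)
  have hM : ∀ μ ∈ E, (Δ ^ (E.sup N)) (F μ) = 0 := fun μ hμ =>
    LN.mono (hN μ) _ (Finset.le_sup hμ)
  have hmem : ∀ μ ∈ E, F μ ∈ p := by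
    refine comp_mem T p hp E F (E.sup N) (fun μ hμ => ?_) (by rw [hsum]; exact hf)
    rw [pow_sub_apply T S Δ hSΔ μ (c μ) (hT μ) _ _ (hSF μ), hM μ hμ, smul_zero]
  rw [← hsum, map_sum]
  refine p.sum_mem fun μ hμ => ?_
  rw [hSF]
  exact p.smul_mem _ (hmem μ hμ)

/-! ### Derivations -/

theorem jorD : S_JorD := by
  intro n tor p w hw
  have hm : Dst tor (mulPart tor w) p := by
    intro f hf
    have h := jordan ((dr tor w : Derivation ℂ (Rg n) (Rg n)) : Rg n →ₗ[ℂ] Rg n)
      ((dr tor (mulPart tor w) : Derivation ℂ (Rg n) (Rg n)) : Rg n →ₗ[ℂ] Rg n)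
      ((dr tor (addPart tor w) : Derivation ℂ (Rg n) (Rg n)) : Rg n →ₗ[ℂ] Rg n)
      (fun g => dr_comm tor _ _ g) (wt tor w) (fun s c => dr_mulPart_monomial tor w s c)
      (fun _ => 1) (fun μ g hg => by
        have hg' : dr tor (mulPart tor w) g = μ • g := hg
        change dr tor w g - μ • g = (1 : ℂ) • dr tor (addPart tor w) g
        rw [one_smul, ← hg', sub_eq_iff_eq_add]
        conv_lhs => rw [← addPart_add_mulPart tor w, dr_add]
        rfl)
      (fun f => LN.all _ 0 (fun f g => by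
          change dr tor (addPart tor w) (f * g) = dr tor (addPart tor w) f * g +
            f * dr tor (addPart tor w) g + (0 : ℂ) • _
          rw [Derivation.leibniz]; simp only [smul_eq_mul, zero_smul]; ring)
        (fun c => by
          change dr tor (addPart tor w) (C c) = 0
          rw [dr_C])
        (fun i => by
          change ∃ c, dr tor (addPart tor w) (X i) = C c
          rw [dr_X]
          by_cases h : tor i
          · exact ⟨0, by simp [addPart, h]⟩
          · exact ⟨w i, by simp [addPart, h]⟩) f)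
      (p.restrictScalars ℂ) (fun x hx => hw x hx) f hf
    exact h
  refine ⟨fun f hf => ?_, hm⟩
  have h1 : dr tor (addPart tor w) f = dr tor w f - dr tor (mulPart tor w) f := by
    rw [eq_sub_iff_add_eq]
    conv_rhs => rw [← addPart_add_mulPart tor w, dr_add]
    rfl
  rw [h1]
  exact p.sub_mem (hw f hf) (hm f hf)

/-! ### Translations -/

lemma trS_mem (p : Ideal (Rg n)) (v : Fin n → ℂ) (hv : ∀ f ∈ p, tr tor v f ∈ p) :
    ∀ f ∈ p, tr tor (mulPart tor v) f ∈ p := by
  intro f hf
  have h := jordan (tr tor v).toLinearMap (tr tor (mulPart tor v)).toLinearMap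
    ((tr tor (addPart tor v)).toLinearMap - 1)
    (fun g => by
      simp only [AlgHom.toLinearMap_apply, LinearMap.sub_apply, Module.End.one_apply, map_sub]
      rw [tr_comm])
    (fun s => Complex.exp (wt tor v s)) (fun s c => tr_mulPart_monomial tor v s c)
    (fun μ => μ) (fun μ g hg => by
      have hg' : tr tor (mulPart tor v) g = μ • g := hg
      simp only [AlgHom.toLinearMap_apply, LinearMap.sub_apply, Module.End.one_apply, smul_sub]
      congr 1
      conv_lhs => rw [← addPart_add_mulPart tor v, ← tr_tr, hg', map_smul])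
    (fun f => LN.all _ 1 (fun f g => by
        simp only [AlgHom.toLinearMap_apply, LinearMap.sub_apply, Module.End.one_apply, map_mul,
          one_smul]
        ring)
      (fun c => by simp)
      (fun i => by
        simp only [AlgHom.toLinearMap_apply, LinearMap.sub_apply, Module.End.one_apply, tr_X]
        by_cases h : tor i
        · exact ⟨0, by simp [addPart, h]⟩
        · exact ⟨v i, by simp [addPart, h]⟩) f)
    (p.restrictScalars ℂ) (fun x hx => hv x hx) f hf
  exact h

/-- the one parameter group in an additive direction -/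
noncomputable def Phi (a : Fin n → ℂ) : Rg n →ₐ[ℂ] Polynomial (Rg n) :=
  aeval fun i => if tor i then Polynomial.C (X i) else
    Polynomial.C (X i) + Polynomial.C (C (a i)) * Polynomial.X

lemma Phi_C (a : Fin n → ℂ) (c : ℂ) : Phi tor a (C c) = Polynomial.C (C c) := by
  rw [← algebraMap_eq, AlgHom.commutes, Polynomial.algebraMap_apply]

lemma Phi_X (a : Fin n → ℂ) (i : Fin n) : Phi tor a (X i) = if tor i then Polynomial.C (X i) else
    Polynomial.C (X i) + Polynomial.C (C (a i)) * Polynomial.X := by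
  rw [Phi, aeval_X]

lemma Phi_eval (a : Fin n → ℂ) (ha : ∀ i, tor i = true → a i = 0) (t : ℂ) (f : Rg n) :
    (Phi tor a f).eval (C t) = tr tor (t • a) f := by
  induction f using MvPolynomial.induction_on with
  | C c => rw [Phi_C, Polynomial.eval_C, tr_C]
  | add p q hp hq => rw [map_add, Polynomial.eval_add, hp, hq, map_add]
  | mul_X p i hp =>
    rw [map_mul, Polynomial.eval_mul, hp, map_mul, Phi_X, tr_X]
    congr 1
    by_cases h : tor i
    · rw [if_pos h, if_pos h, Polynomial.eval_C, Pi.smul_apply, ha i h, smul_zero,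
        Complex.exp_zero, C_1, one_mul]
    · rw [if_neg h, if_neg h, Polynomial.eval_add, Polynomial.eval_C, Polynomial.eval_mul,
        Polynomial.eval_C, Polynomial.eval_X, Pi.smul_apply, smul_eq_mul, mul_comm t, C_mul]

lemma Phi_coeff_one (a : Fin n → ℂ) (ha : ∀ i, tor i = true → a i = 0) (f : Rg n) :
    (Phi tor a f).coeff 1 = dr tor a f := by
  have h0 : ∀ g, (Phi tor a g).coeff 0 = g := by
    intro g
    rw [Polynomial.coeff_zero_eq_eval_zero]
    have := Phi_eval tor a ha 0 g
    rw [zero_smul, tr_zero, map_zero] at this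
    exact this
  induction f using MvPolynomial.induction_on with
  | C c => rw [Phi_C, Polynomial.coeff_C, if_neg one_ne_zero, dr_C]
  | add p q hp hq => rw [map_add, Polynomial.coeff_add, hp, hq, map_add]
  | mul_X p i hp =>
    have h1 : (Phi tor a (X i)).coeff 1 = dr tor a (X i) := by
      rw [dr_X, Phi_X]
      by_cases h : tor i
      · rw [if_pos h, if_pos h, Polynomial.coeff_C, if_neg one_ne_zero, ha i h, C_0, zero_mul]
      · rw [if_neg h, if_neg h, Polynomial.coeff_add, Polynomial.coeff_C, if_neg one_ne_zero,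
          Polynomial.coeff_C_mul, Polynomial.coeff_X_one, zero_add, mul_one]
    have h2 : Finset.HasAntidiagonal.antidiagonal (1 : ℕ) = {((0, 1) : ℕ × ℕ), (1, 0)} := by decide
    rw [map_mul, Polynomial.coeff_mul, h2, Finset.sum_pair (by decide)]
    simp only [h0, hp, h1]
    rw [Derivation.leibniz]
    simp only [smul_eq_mul]
    ring

theorem jorT : S_JorT := by
  intro n tor p v hv
  have h1 : ∀ f ∈ p, tr tor v f ∈ p := fun f hf => (hv f).1 hf
  have h2 : ∀ f ∈ p, tr tor (-v) f ∈ p := fun f hf => by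
    rw [hv, tr_tr_neg]; exact hf
  have h3 := trS_mem tor p v h1
  have h4 := trS_mem tor p (-v) h2
  rw [mulPart_neg] at h4
  refine ⟨?_, fun f => ⟨h3 f, fun hf => ?_⟩⟩
  · have h5 : ∀ f ∈ p, tr tor (addPart tor v) f ∈ p := by
      intro f hf
      have h6 : tr tor (addPart tor v) f = tr tor v (tr tor (-mulPart tor v) f) := by
        rw [tr_tr]
        congr 2
        rw [← sub_eq_add_neg, eq_sub_iff_add_eq, addPart_add_mulPart]
      rw [h6]
      exact h1 _ (h4 _ hf)
    have h7 : ∀ k : ℕ, ∀ f ∈ p, tr tor ((k : ℂ) • addPart tor v) f ∈ p := by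
      intro k
      induction k with
      | zero => intro f hf; simpa [tr_zero] using hf
      | succ k ih =>
        intro f hf
        have h8 : tr tor (((k + 1 : ℕ) : ℂ) • addPart tor v) f =
            tr tor (addPart tor v) (tr tor ((k : ℂ) • addPart tor v) f) := by
          rw [tr_tr]
          congr 2
          push_cast
          rw [add_smul, one_smul, add_comm]
        rw [h8]
        exact h5 _ (ih f hf)
    have ha : ∀ i, tor i = true → addPart tor v i = 0 := fun i hi => by simp [addPart, hi]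
    intro f hf
    rw [← Phi_coeff_one tor _ ha]
    have h9 := curve_mem (p.restrictScalars ℂ) (max 2 ((Phi tor (addPart tor v) f).natDegree + 1))
      (fun j => (Phi tor (addPart tor v) f).coeff j) (fun k => by
        have h10 := h7 k f hf
        rw [← Phi_eval tor _ ha, Polynomial.eval_eq_sum_range'
          (n := max 2 ((Phi tor (addPart tor v) f).natDegree + 1)) (by omega)] at h10
        have h11 : ∑ j ∈ Finset.range (max 2 ((Phi tor (addPart tor v) f).natDegree + 1)),
            ((k : ℂ) ^ j) • (Phi tor (addPart tor v) f).coeff j ∈ p := by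
          convert h10 using 1
          refine Finset.sum_congr rfl fun j _ => ?_
          rw [smul_eq_C_mul, mul_comm, C_pow]
        exact h11) 1 (by omega)
    exact h9
  · have := h4 _ hf
    rwa [tr_neg_tr] at this

end Trs.H79
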